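import Pool.Agent.H15.PCP3.Main

/-!
# MP_07c050_lc: the Post correspondence problem with three pairs of words is undecidable

An instance with lists of length `n` is `P : Fin n → List ℕ × List ℕ`, `(P i).1 = g(i)` and
`(P i).2 = h(i)`, words over the alphabet of letters `ℕ` (each instance uses finitely many letters).
It is nonerasing if all the words are nonempty, and positive if `g(w) = h(w)` for some nonempty word
`w : List (Fin n)`.  With the decidability of the problem with two pairs (Ehrenfeucht, Karhumäki and
Rozenberg 1982) the least `n` with undecidable problem is 3.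
-/

namespace Pool.Agent.Results.MP_07c050_lc.ThreePairs

theorem result (n : ℕ) (hn : 3 ≤ n) :
    ¬ ∃ d : (Fin n → List ℕ × List ℕ) → Bool, Computable d ∧
      ∀ P : Fin n → List ℕ × List ℕ, (∀ i, (P i).1 ≠ [] ∧ (P i).2 ≠ []) →
        (d P = true ↔ ∃ w : List (Fin n), w ≠ [] ∧
          w.flatMap (fun i => (P i).1) = w.flatMap (fun i => (P i).2)) :=
  H15.PCP3.pcp_undecidable n hn

end Pool.Agent.Results.MP_07c050_lc.ThreePairs
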